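import Pool.Agent.R957.BRW.Aut

/-!
# A quasi-transitive branching random walk without local survival, with `E_G` finite and
`F_G \ E_G` uncountable

The example: a particle at `x ∈ ℤ` has one child at `x + 1` and, with probability `1/8`, one more
child at `x - 1`.

`pop`, `law`, `gen` are those of the starting library `Pool.Agent.H632R3.BranchGen`;
`qExt`, `extSet`, `fixSet`, `Irr`, `IsAut`, `QuasiTransitive` are in `Pool.Agent.R957.BRW.Defs`.
-/

namespace Pool.Agent.Results.MP_c15531_pr.UncountableNonExtinction

open Pool.Agent.R957.BRW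

/-- There is an irreducible, quasi-transitive branching random walk on `ℤ` with almost sure
extinction in every single site, with `E_G = {q(·,ℤ), 1}` finite, and such that `F_G \ E_G` has the
cardinality of the continuum. -/
theorem result : ∃ μ : ℤ → PMF (ℤ →₀ ℕ), Irr μ ∧ QuasiTransitive μ ∧
    (∀ x y, qExt μ {x} y = 1) ∧ extSet μ = {qExt μ Set.univ, 1} ∧
    Cardinal.mk (fixSet μ \ extSet μ : Set (ℤ → ℝ)) = Cardinal.continuum := by
  refine ⟨muZ, irr_muZ, muZ_qt, fun x y => qExt_bdd bddAbove_singleton y, ext_muZ, ?_⟩
  refine card_diff fix_muZ ?_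
  rw [ext_muZ]
  exact ((Set.finite_singleton _).insert _).countable

end Pool.Agent.Results.MP_c15531_pr.UncountableNonExtinction
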